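import Pool.Agent.Q91.PT.Stm3
import Pool.Agent.H739K.F2
import Pool.Agent.H739K.MAIN
import Pool.Agent.H739K.RATE
import Pool.Agent.H739K.RATIO
import Pool.Agent.H739K.BND
import Pool.Agent.H739K.CONV

/-!
# Project PT (helper91), job TVW: total variation
-/

set_option autoImplicit false

namespace Pool.Agent.Q224.PT.TVW

open Finset Pool.Agent.H976R2 Pool.Agent.H976R2.Lip Pool.Agent.H739K Pool.Agent.H924P
open Pool.Agent.Q91.PT
open scoped Classical

noncomputable section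

/-! ## general facts -/

/-- a total variation estimate -/
theorem tv_abs (T : Finset ℤ) (q q' : ℤ → ℝ) (hq' : ∀ a, 0 ≤ q' a) (hq : ∀ a, 0 ≤ q a)
    (hs : ∑ a ∈ T, q a = 1) (hs' : ∑ a ∈ T, q' a = 1) (η θ β : ℝ) (hη : 0 ≤ η)
    (hg : ∀ a ∈ T, θ ≤ q a → |q' a - q a| ≤ η * q a)
    (hb : ∑ a ∈ T.filter (fun a => ¬ θ ≤ q a), q a ≤ β) :
    ∑ a ∈ T, |q' a - q a| ≤ 2 * η + 2 * β := by
  have e : ∀ f : ℤ → ℝ, ∑ a ∈ T, f a = ∑ a ∈ T.filter (fun a => θ ≤ q a), f a +
      ∑ a ∈ T.filter (fun a => ¬ θ ≤ q a), f a := fun f =>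
    (Finset.sum_filter_add_sum_filter_not T (fun a => θ ≤ q a) f).symm
  have h1 : ∑ a ∈ T.filter (fun a => θ ≤ q a), |q' a - q a| ≤ η := by
    calc _ ≤ ∑ a ∈ T.filter (fun a => θ ≤ q a), η * q a :=
          Finset.sum_le_sum fun a ha => hg a (Finset.mem_filter.1 ha).1 (Finset.mem_filter.1 ha).2
      _ = η * ∑ a ∈ T.filter (fun a => θ ≤ q a), q a := (Finset.mul_sum _ _ _).symm
      _ ≤ η * 1 := by
          apply mul_le_mul_of_nonneg_left _ hη
          rw [← hs]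
          exact Finset.sum_le_sum_of_subset_of_nonneg (Finset.filter_subset _ _)
            fun a _ _ => hq a
      _ = η := mul_one η
  have h2 : ∑ a ∈ T.filter (fun a => ¬ θ ≤ q a), |q' a - q a| ≤
      ∑ a ∈ T.filter (fun a => ¬ θ ≤ q a), q' a + ∑ a ∈ T.filter (fun a => ¬ θ ≤ q a), q a := by
    rw [← Finset.sum_add_distrib]
    refine Finset.sum_le_sum fun a _ => ?_
    rw [abs_le]
    exact ⟨by linarith [hq a, hq' a], by linarith [hq a, hq' a]⟩
  have h3 : |∑ a ∈ T.filter (fun a => θ ≤ q a), (q' a - q a)| ≤ η :=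
    (Finset.abs_sum_le_sum_abs _ _).trans h1
  rw [Finset.sum_sub_distrib] at h3
  have h4 := e q
  have h5 := e q'
  rw [hs] at h4
  rw [hs'] at h5
  rw [e fun a => |q' a - q a|]
  have h6 := (abs_le.1 h3).1
  linarith

theorem log_one {n : ℕ} (hn : 3 ≤ n) : 1 ≤ Real.log n := by
  have h3 : (3 : ℝ) ≤ n := by exact_mod_cast hn
  rw [Real.le_log_iff_exp_le (by linarith)]
  have := Real.exp_one_lt_d9
  linarith

/-- `(log n / 12)^12 ≤ n` -/
theorem log_pow {n : ℕ} (hn : 3 ≤ n) : Real.log n ^ 12 ≤ 12 ^ 12 * n := by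
  have h3 : (0 : ℝ) < n := by
    have : (3 : ℝ) ≤ n := by exact_mod_cast hn
    linarith
  have hu := log_one hn
  have h1 : Real.log n / 12 ≤ Real.exp (Real.log n / 12) := by
    have := Real.add_one_le_exp (Real.log n / 12)
    linarith
  have h2 : (Real.log n / 12) ^ 12 ≤ Real.exp (Real.log n / 12) ^ 12 :=
    pow_le_pow_left₀ (by positivity) h1 12
  have h4 : Real.exp (Real.log n / 12) ^ 12 = n := by
    rw [← Real.exp_nat_mul]
    rw [show ((12 : ℕ) : ℝ) * (Real.log n / 12) = Real.log n by push_cast; ring, Real.exp_log h3]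
  rw [h4, div_pow, div_le_iff₀ (by positivity)] at h2
  linarith

/-- the rate -/
def rr (n : ℕ) : ℝ := Real.log n ^ (3 / 2 : ℝ) / (n : ℝ) ^ (1 / 4 : ℝ)

theorem rr_four {n : ℕ} (hn : 3 ≤ n) : rr n ^ 4 = Real.log n ^ 6 / n := by
  have h3 : (0 : ℝ) < n := by
    have : (3 : ℝ) ≤ n := by exact_mod_cast hn
    linarith
  have hu := log_one hn
  unfold rr
  rw [div_pow, ← Real.rpow_natCast, ← Real.rpow_natCast, ← Real.rpow_mul (by linarith),
    ← Real.rpow_mul h3.le]
  norm_num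

theorem rr_pos {n : ℕ} (hn : 3 ≤ n) : 0 < rr n := by
  have h3 : (0 : ℝ) < n := by
    have : (3 : ℝ) ≤ n := by exact_mod_cast hn
    linarith
  have hu := log_one hn
  unfold rr
  positivity

theorem le_of_four {x y : ℝ} (hy : 0 ≤ y) (h : x ^ 4 ≤ y ^ 4) : x ≤ y :=
  le_of_pow_le_pow_left₀ (by norm_num) hy h

theorem inv_le_rr {n : ℕ} (hn : 3 ≤ n) : 1 / (n : ℝ) ≤ rr n := by
  have h3 : (3 : ℝ) ≤ n := by exact_mod_cast hn
  have hu := log_one hn
  apply le_of_four (rr_pos hn).le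
  rw [rr_four hn, div_pow, one_pow, div_le_div_iff₀ (by positivity) (by linarith), one_mul]
  have h1 : (1 : ℝ) ≤ Real.log n ^ 6 := one_le_pow₀ hu
  have h2 : (n : ℝ) ≤ (n : ℝ) ^ 4 := by
    calc (n : ℝ) = (n : ℝ) ^ 1 := (pow_one _).symm
      _ ≤ (n : ℝ) ^ 4 := pow_le_pow_right₀ (by linarith) (by norm_num)
  nlinarith [pow_pos (show (0 : ℝ) < n by linarith) 4]

theorem rt_le {n : ℕ} (hn : 3 ≤ n) : rt n ≤ 1728 * rr n := by
  have h3 : (3 : ℝ) ≤ n := by exact_mod_cast hn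
  have h0 : (0 : ℝ) < n := by linarith
  have hu := log_one hn
  apply le_of_four (mul_nonneg (by norm_num) (rr_pos hn).le)
  have h1 : rt n ^ 4 = (Real.log n ^ 9 / n) ^ 2 := by
    unfold rt
    rw [show (4 : ℕ) = 2 * 2 by norm_num, pow_mul, Real.sq_sqrt (by positivity)]
  rw [h1, mul_pow, rr_four hn, div_pow, mul_div_assoc', div_le_div_iff₀ (by positivity) h0]
  have h2 := log_pow hn
  have h4 : 0 ≤ Real.log n ^ 6 * n := by positivity
  calc (Real.log n ^ 9) ^ 2 * n = Real.log n ^ 12 * (Real.log n ^ 6 * n) := by ring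
    _ ≤ 12 ^ 12 * n * (Real.log n ^ 6 * n) := mul_le_mul_of_nonneg_right h2 h4
    _ = 1728 ^ 4 * Real.log n ^ 6 * (n : ℝ) ^ 2 := by ring

theorem quart_le {n : ℕ} (hn : 3 ≤ n) {h : ℝ} (h0 : 0 ≤ h) (h1 : h ≤ 7 * Real.log n ^ 2) :
    (h ^ 3 / n) ^ (1 / 4 : ℝ) ≤ 5 * rr n := by
  have h3 : (3 : ℝ) ≤ n := by exact_mod_cast hn
  have hn0 : (0 : ℝ) < n := by linarith
  have hu := log_one hn
  have hx : 0 ≤ h ^ 3 / n := by positivity
  apply le_of_four (mul_nonneg (by norm_num) (rr_pos hn).le)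
  rw [← Real.rpow_natCast, ← Real.rpow_mul hx]
  norm_num
  rw [mul_pow, rr_four hn, mul_div_assoc', div_le_div_iff_of_pos_right hn0]
  calc h ^ 3 ≤ (7 * Real.log n ^ 2) ^ 3 := pow_le_pow_left₀ h0 h1 3
    _ = 343 * Real.log n ^ 6 := by ring
    _ ≤ 5 ^ 4 * Real.log n ^ 6 := by
        apply mul_le_mul_of_nonneg_right (by norm_num) (by positivity)

/-! ## words -/

theorem Nn_eq (n : ℕ) (a : ℤ) : Nn n a = (((KP n).filter (fun w => (ar w : ℤ) = a)).card : ℝ) := by
  unfold Nn NB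
  simp only [Set.mem_univ, true_and]

theorem Nn_nonneg (n : ℕ) (a : ℤ) : 0 ≤ Nn n a := by
  rw [Nn_eq]
  exact Nat.cast_nonneg _

theorem ar_le {n : ℕ} (hn : 3 ≤ n) {w : List Dir} (hw : w ∈ KP n) : ar w ≤ (2 * (n + 1)) ^ 2 := by
  unfold KP at hw
  rw [mem_filter, mem_SW] at hw
  obtain ⟨⟨h1, h2⟩, h3⟩ := hw
  have hl := F2aux.loop_of CONV_proof (by omega) h2 h3
  have : NeZero (w.length + 1) := ⟨by omega⟩
  have h4 := all_area hl
  rw [h1] at h4
  unfold ar
  rw [h1]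
  exact h4

theorem sum_Nn {n : ℕ} {T : Finset ℤ} (hT : ∀ w ∈ KP n, (ar w : ℤ) ∈ T) :
    ∑ a ∈ T, Nn n a = ((KP n).card : ℝ) := by
  rw [Finset.card_eq_sum_card_fiberwise (f := fun w => (ar w : ℤ)) (t := T) hT]
  push_cast
  exact Finset.sum_congr rfl fun a _ => Nn_eq n a

theorem sum_Nn_le {n : ℕ} (S : Finset ℤ) : ∑ a ∈ S, Nn n a ≤ ((KP n).card : ℝ) := by
  have h1 := sum_Nn (n := n) (T := S ∪ (KP n).image (fun w => (ar w : ℤ)))
    (fun w hw => mem_union_right _ (mem_image_of_mem (fun w => (ar w : ℤ)) hw))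
  rw [← h1]
  exact Finset.sum_le_sum_of_subset_of_nonneg subset_union_left fun a _ _ => Nn_nonneg n a

theorem Nn_le (n : ℕ) (a : ℤ) : Nn n a ≤ ((KP n).card : ℝ) := by
  have := sum_Nn_le (n := n) {a}
  rwa [sum_singleton] at this

theorem Nn_zero {n : ℕ} (hn : 3 ≤ n) {a : ℤ} (ha : a ∉ Icc (0 : ℤ) ((2 * (n + 1)) ^ 2 : ℕ)) :
    Nn n a = 0 := by
  rw [Nn_eq, Nat.cast_eq_zero, card_eq_zero, filter_eq_empty_iff]
  intro w hw h
  apply ha
  rw [mem_Icc, ← h]
  have h1 := ar_le hn hw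
  exact ⟨by positivity, by exact_mod_cast h1⟩

theorem card_pos {n : ℕ} (hn : 3 ≤ n) (ho : n % 2 = 1) : 0 < ((KP n).card : ℝ) := by
  obtain ⟨hmu, K, -, h⟩ := BND_proof CONV_proof
  have hmu0 : 0 < H981.mu := by linarith
  exact lt_of_lt_of_le (mul_pos (pow_pos hmu0 _) (Real.exp_pos _)) (h n hn ho).1

theorem card_ratio : ∃ C : ℝ, 0 ≤ C ∧ ∀ n : ℕ, 3 ≤ n → n % 2 = 1 →
    |((KP (n + 2)).card : ℝ) / (H981.mu ^ 2 * (KP n).card) - 1| ≤ C * rt n := by
  have hb : S_bnd := BND_proof CONV_proof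
  have hm : S_main := MAIN_proof RATE_proof hb (RATIO_proof hb)
  obtain ⟨C, hC⟩ := hm 0 le_rfl
  have hmm : ∀ n, mm (fun _ => 1) n = ((KP n).card : ℝ) := fun n => by
    unfold mm
    simp
  refine ⟨|C|, abs_nonneg C, fun n hn ho => ?_⟩
  have h1 := hC n (fun _ => 1) hn ho (fun m _ _ _ => by
    refine ⟨fun _ _ _ _ _ => le_rfl, fun _ _ _ _ _ => ?_, fun _ _ _ _ _ => by simp⟩
    have : (1 : ℝ) ≤ ((m : ℝ) + 5) ^ 3 := one_le_pow₀ (by
      have : (0 : ℝ) ≤ m := Nat.cast_nonneg m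
      linarith)
    linarith)
  rw [hmm, hmm] at h1
  refine h1.trans (mul_le_mul_of_nonneg_right (le_abs_self C) (Real.sqrt_nonneg _))

/-! ## the theorem -/

theorem big (c C : ℝ) (hc : 0 < c) : ∃ n₀ : ℕ, ∀ n : ℕ, n₀ ≤ n →
    343 * Real.log n ^ 6 ≤ c * n ∧ C * rt n ≤ 1 / 2 := by
  have h1 : ∀ᶠ x : ℝ in Filter.atTop, Real.log x ^ 6 ≤ c / 343 * x := by
    have h := (Real.isLittleO_pow_log_id_atTop (n := 6)).bound (c := c / 343) (by positivity)
    filter_upwards [h, Filter.eventually_ge_atTop 1] with x hx hx1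
    rw [Real.norm_eq_abs, Real.norm_eq_abs] at hx
    have : |id x| = x := abs_of_nonneg (by simp; linarith)
    rw [this] at hx
    exact (le_abs_self _).trans hx
  have h2 : ∀ᶠ x : ℝ in Filter.atTop, Real.log x ^ 9 ≤ 1 / (4 * (|C| + 1) ^ 2) * x := by
    have h := (Real.isLittleO_pow_log_id_atTop (n := 9)).bound (c := 1 / (4 * (|C| + 1) ^ 2))
      (by positivity)
    filter_upwards [h, Filter.eventually_ge_atTop 1] with x hx hx1
    rw [Real.norm_eq_abs, Real.norm_eq_abs] at hx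
    have : |id x| = x := abs_of_nonneg (by simp; linarith)
    rw [this] at hx
    exact (le_abs_self _).trans hx
  have h3 := tendsto_natCast_atTop_atTop (R := ℝ) |>.eventually (h1.and h2)
  obtain ⟨n₀, hn₀⟩ := Filter.eventually_atTop.1 h3
  refine ⟨n₀ + 3, fun n hn => ?_⟩
  obtain ⟨a1, a2⟩ := hn₀ n (by omega)
  have hn3 : 3 ≤ n := by omega
  have h3 : (3 : ℝ) ≤ n := by exact_mod_cast hn3
  have hn0 : (0 : ℝ) < n := by linarith
  constructor
  · have : c / 343 * (n : ℝ) * 343 = c * n := by ring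
    linarith
  · have b1 : rt n ≤ 1 / (2 * (|C| + 1)) := by
      unfold rt
      rw [Real.sqrt_le_left (by positivity), div_le_iff₀ hn0, div_pow, mul_pow]
      norm_num
      norm_num at a2
      exact a2
    have b2 : 0 ≤ rt n := Real.sqrt_nonneg _
    calc C * rt n ≤ (|C| + 1) * rt n :=
          mul_le_mul_of_nonneg_right (by linarith [le_abs_self C]) b2
      _ ≤ (|C| + 1) * (1 / (2 * (|C| + 1))) := mul_le_mul_of_nonneg_left b1 (by positivity)
      _ = 1 / 2 := by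
          field_simp

/-- **TVW** -/
theorem t (hup : S_upw) : S_tvw := by
  obtain ⟨K, δ, hK, hδ, hup⟩ := hup
  obtain ⟨C, hC, hrat⟩ := card_ratio
  obtain ⟨n₀, hn₀⟩ := big δ C hδ
  have hmu : 0 < H981.mu := H981.mu_pos
  refine ⟨2 * (2 * (5 * K + C * 1728)) * 1 * 1 + 2 * (2 * (5 * K + C * 1728)) + 34 + 2 * (n₀ + 1), by positivity, ?_⟩
  intro n hn ho S
  have h3 : (3 : ℝ) ≤ n := by exact_mod_cast hn
  have hn0 : (0 : ℝ) < n := by linarith
  have hu := log_one hn
  have hM := card_pos hn ho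
  have hM' := card_pos (n := n + 2) (by omega) (by omega)
  change _ ≤ _ * rr n
  have hr := rr_pos hn
  have hri := inv_le_rr hn
  have hKC : 0 ≤ 5 * K + C * 1728 := by positivity
  by_cases hbig : n < n₀
  · -- small `n`
    have h1 : ∑ a ∈ S, |Nn (n + 2) a / (KP (n + 2)).card - Nn n a / (KP n).card| ≤
        ∑ a ∈ S, Nn (n + 2) a / (KP (n + 2)).card + ∑ a ∈ S, Nn n a / (KP n).card := by
      rw [← Finset.sum_add_distrib]
      refine Finset.sum_le_sum fun a _ => ?_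
      have e1 : 0 ≤ Nn (n + 2) a / (KP (n + 2)).card := div_nonneg (Nn_nonneg _ _) hM'.le
      have e2 : 0 ≤ Nn n a / (KP n).card := div_nonneg (Nn_nonneg _ _) hM.le
      rw [abs_le]
      exact ⟨by linarith, by linarith⟩
    have h2 : ∑ a ∈ S, Nn (n + 2) a / (KP (n + 2)).card ≤ 1 := by
      rw [← Finset.sum_div, div_le_one hM']
      exact sum_Nn_le S
    have h4 : ∑ a ∈ S, Nn n a / (KP n).card ≤ 1 := by
      rw [← Finset.sum_div, div_le_one hM]
      exact sum_Nn_le S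
    have h5 : (1 : ℝ) ≤ (n₀ + 1) * rr n := by
      have h6 : (n : ℝ) ≤ n₀ + 1 := by
        have : n ≤ n₀ + 1 := by omega
        exact_mod_cast this
      calc (1 : ℝ) = n * (1 / n) := by field_simp
        _ ≤ (n₀ + 1) * rr n := mul_le_mul h6 hri (by positivity) (by positivity)
    have h7 : 0 ≤ (5 * K + C * 1728) * rr n := by positivity
    nlinarith
  · -- large `n`
    obtain ⟨hb1, hb2⟩ := hn₀ n (by omega)
    set M : ℝ := ((KP n).card : ℝ) with hMd
    set M' : ℝ := ((KP (n + 2)).card : ℝ) with hMd'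
    let T : Finset ℤ := S ∪ Icc (0 : ℤ) ((2 * (n + 2 + 1)) ^ 2 : ℕ)
    have hT : ∀ w ∈ KP n, (ar w : ℤ) ∈ T := by
      intro w hw
      refine mem_union_right _ ?_
      rw [mem_Icc]
      have e1 := ar_le hn hw
      have e2 : (2 * (n + 1)) ^ 2 ≤ (2 * (n + 2 + 1)) ^ 2 := Nat.pow_le_pow_left (by omega) 2
      exact ⟨by positivity, by exact_mod_cast e1.trans e2⟩
    have hT' : ∀ w ∈ KP (n + 2), (ar w : ℤ) ∈ T := by
      intro w hw
      refine mem_union_right _ ?_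
      rw [mem_Icc]
      have e1 := ar_le (n := n + 2) (by omega) hw
      exact ⟨by positivity, by exact_mod_cast e1⟩
    let q : ℤ → ℝ := fun a => Nn n a / M
    let q' : ℤ → ℝ := fun a => Nn (n + 2) a / M'
    have hq : ∀ a, 0 ≤ q a := fun a => div_nonneg (Nn_nonneg _ _) hM.le
    have hq' : ∀ a, 0 ≤ q' a := fun a => div_nonneg (Nn_nonneg _ _) hM'.le
    have hs : ∑ a ∈ T, q a = 1 := by
      rw [← Finset.sum_div, sum_Nn hT]
      exact div_self hM.ne'
    have hs' : ∑ a ∈ T, q' a = 1 := by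
      rw [← Finset.sum_div, sum_Nn hT']
      exact div_self hM'.ne'
    have hy := hrat n hn ho
    set y : ℝ := M' / (H981.mu ^ 2 * M) with hyd
    have hy2 : 1 / 2 ≤ y := by
      have := (abs_le.1 (hy.trans hb2)).1
      linarith
    have hy1 : |y - 1| ≤ C * 1728 * rr n := by
      calc |y - 1| ≤ C * rt n := hy
        _ ≤ C * (1728 * rr n) := mul_le_mul_of_nonneg_left (rt_le hn) hC
        _ = _ := by ring
    have main := tv_abs T q q' hq' hq hs hs' (2 * (5 * K + C * 1728) * rr n) (1 / (n : ℝ) ^ 6)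
      (17 * rr n) (by positivity) ?_ ?_
    · have h1 : ∑ a ∈ S, |q' a - q a| ≤ ∑ a ∈ T, |q' a - q a| :=
        Finset.sum_le_sum_of_subset_of_nonneg subset_union_left fun a _ _ => abs_nonneg _
      have h2 : ∑ a ∈ S, |Nn (n + 2) a / M' - Nn n a / M| = ∑ a ∈ S, |q' a - q a| := rfl
      rw [h2]
      refine (h1.trans main).trans ?_
      have h7 : 0 ≤ (5 * K + C * 1728) * rr n := by positivity
      have h8 : 0 ≤ (n₀ : ℝ) * rr n := by positivity
      nlinarith
    · -- good areas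
      intro a _ hga
      have hNa : 0 < Nn n a := by
        have h1 : 0 < q a := lt_of_lt_of_le (by positivity) hga
        by_contra h2
        have h4 : Nn n a = 0 := le_antisymm (not_lt.1 h2) (Nn_nonneg _ _)
        change 0 < Nn n a / M at h1
        rw [h4, zero_div] at h1
        exact lt_irrefl _ h1
      have hMN : 1 ≤ M / Nn n a := by
        rw [one_le_div hNa]
        exact Nn_le n a
      have hlog0 : 0 ≤ Real.log (M / Nn n a) := Real.log_nonneg hMN
      have hlog : Real.log (M / Nn n a) ≤ 6 * Real.log n := by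
        have h1 : M / Nn n a ≤ (n : ℝ) ^ 6 := by
          have h2 : 1 / (n : ℝ) ^ 6 ≤ Nn n a / M := hga
          rw [div_le_div_iff₀ (by positivity) hM, one_mul] at h2
          rw [div_le_iff₀ hNa]
          linarith
        have h2 := Real.log_le_log (by positivity) h1
        rw [Real.log_pow] at h2
        exact_mod_cast h2
      have hhl0 : 0 ≤ hl n a := by
        change 0 ≤ Real.log n ^ 2 + Real.log (M / Nn n a)
        positivity
      have hhl : hl n a ≤ 7 * Real.log n ^ 2 := by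
        change Real.log n ^ 2 + Real.log (M / Nn n a) ≤ _
        have : Real.log n ≤ Real.log n ^ 2 := by nlinarith
        linarith
      have hcond : hl n a ^ 3 ≤ δ * n := by
        calc hl n a ^ 3 ≤ (7 * Real.log n ^ 2) ^ 3 := pow_le_pow_left₀ hhl0 hhl 3
          _ = 343 * Real.log n ^ 6 := by ring
          _ ≤ δ * n := hb1
      have hx := hup n hn ho a hNa hcond
      have hx1 : |Nn (n + 2) a / (H981.mu ^ 2 * Nn n a) - 1| ≤ 5 * K * rr n := by
        refine hx.trans ?_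
        calc K * (hl n a ^ 3 / n) ^ (1 / 4 : ℝ) ≤ K * (5 * rr n) :=
              mul_le_mul_of_nonneg_left (quart_le hn hhl0 hhl) hK.le
          _ = _ := by ring
      set x : ℝ := Nn (n + 2) a / (H981.mu ^ 2 * Nn n a) with hxd
      have hy0 : 0 < y := by linarith
      have e1 : q' a - q a = (x - y) / y * q a := by
        change Nn (n + 2) a / M' - Nn n a / M = (x - y) / y * (Nn n a / M)
        rw [hxd, hyd]
        field_simp
      rw [e1, abs_mul, abs_of_nonneg (hq a)]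
      apply mul_le_mul_of_nonneg_right _ (hq a)
      rw [abs_div, abs_of_pos hy0, div_le_iff₀ hy0]
      have e2 : |x - y| ≤ |x - 1| + |y - 1| := by
        have : x - y = (x - 1) - (y - 1) := by ring
        rw [this]
        exact abs_sub _ _
      have e3 : |x - y| ≤ (5 * K + C * 1728) * rr n := by linarith
      have e4 : 0 ≤ (5 * K + C * 1728) * rr n := by positivity
      nlinarith
    · -- bad areas
      have h1 : ∑ a ∈ T.filter (fun a => ¬ 1 / (n : ℝ) ^ 6 ≤ q a), q a ≤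
          ∑ a ∈ Icc (0 : ℤ) ((2 * (n + 2 + 1)) ^ 2 : ℕ), 1 / (n : ℝ) ^ 6 := by
        rw [← Finset.sum_filter_add_sum_filter_not (T.filter (fun a => ¬ 1 / (n : ℝ) ^ 6 ≤ q a))
          (fun a => a ∈ Icc (0 : ℤ) ((2 * (n + 2 + 1)) ^ 2 : ℕ))]
        have e2 : ∑ a ∈ (T.filter (fun a => ¬ 1 / (n : ℝ) ^ 6 ≤ q a)).filter
            (fun a => ¬ a ∈ Icc (0 : ℤ) ((2 * (n + 2 + 1)) ^ 2 : ℕ)), q a = 0 := by
          refine Finset.sum_eq_zero fun a ha => ?_
          have h2 := (mem_filter.1 ha).2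
          change Nn n a / M = 0
          rw [Nn_zero hn, zero_div]
          intro h4
          apply h2
          rw [mem_Icc] at h4 ⊢
          have e2 : (2 * (n + 1)) ^ 2 ≤ (2 * (n + 2 + 1)) ^ 2 := Nat.pow_le_pow_left (by omega) 2
          refine ⟨h4.1, h4.2.trans ?_⟩
          exact_mod_cast e2
        rw [e2, add_zero]
        calc
          _ ≤ ∑ a ∈ (T.filter (fun a => ¬ 1 / (n : ℝ) ^ 6 ≤ q a)).filter
              (fun a => a ∈ Icc (0 : ℤ) ((2 * (n + 2 + 1)) ^ 2 : ℕ)), 1 / (n : ℝ) ^ 6 :=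
              Finset.sum_le_sum fun a ha =>
                (not_le.1 (mem_filter.1 (mem_filter.1 ha).1).2).le
          _ ≤ _ := Finset.sum_le_sum_of_subset_of_nonneg
              (fun a ha => (mem_filter.1 ha).2) fun a _ _ => by positivity
      refine h1.trans ?_
      rw [Finset.sum_const, nsmul_eq_mul, Int.card_Icc]
      have e3 : (((((2 * (n + 2 + 1)) ^ 2 : ℕ) : ℤ) + 1 - 0).toNat : ℝ) =
          (2 * ((n : ℝ) + 2 + 1)) ^ 2 + 1 := by
        have : ((((2 * (n + 2 + 1)) ^ 2 : ℕ) : ℤ) + 1 - 0).toNat = (2 * (n + 2 + 1)) ^ 2 + 1 := by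
          omega
        rw [this]
        push_cast
        ring
      rw [e3]
      have e4 : (2 * ((n : ℝ) + 2 + 1)) ^ 2 + 1 ≤ 17 * (n : ℝ) ^ 2 := by nlinarith
      have e5 : (n : ℝ) ^ 2 * (1 / (n : ℝ) ^ 6) ≤ 1 / n := by
        rw [mul_one_div, div_le_div_iff₀ (by positivity) hn0, one_mul]
        calc (n : ℝ) ^ 2 * n = (n : ℝ) ^ 3 := by ring
          _ ≤ (n : ℝ) ^ 6 := pow_le_pow_right₀ (by linarith) (by norm_num)
      calc ((2 * ((n : ℝ) + 2 + 1)) ^ 2 + 1) * (1 / (n : ℝ) ^ 6)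
          ≤ 17 * (n : ℝ) ^ 2 * (1 / (n : ℝ) ^ 6) :=
            mul_le_mul_of_nonneg_right e4 (by positivity)
        _ = 17 * ((n : ℝ) ^ 2 * (1 / (n : ℝ) ^ 6)) := by ring
        _ ≤ 17 * (1 / n) := mul_le_mul_of_nonneg_left e5 (by norm_num)
        _ ≤ 17 * rr n := mul_le_mul_of_nonneg_left hri (by norm_num)

end

end Pool.Agent.Q224.PT.TVW
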